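import Pool.Agent.Helper62.DSH.StB
import Pool.Agent.Helper17.LH.M_FRC
import Pool.Agent.Helper13.LH.M_FRB

/-!
# Project DSH (MP_087a81_gt), module FRG: Friedrichs' lemma for a first order operator with smooth coefficients
-/

set_option autoImplicit false

open Set Filter Topology MeasureTheory
open Helper62.LH Helper62.DSH
open scoped ContDiff ENNReal

namespace Pool.Agent.Helper82.DSH

open Pool.Agent.Helper17.LH (mol_compact locInt_of_L2l L2l_of_continuous int_mo fderiv_rho_cont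
  fderiv_rho_supp)
open Pool.Agent.Helper13.LH.Frb (l2l_mul sub_int dder cc_u)

private theorem sumsq {n : ℕ} {J : Type} [Fintype J] {K : Set (E n)} (t : J → ℝ → E n → ℝ)
    (h1 : ∀ j, ∀ᶠ ε : ℝ in 𝓝[>] 0, IntegrableOn (fun x => t j ε x ^ 2) K)
    (h2 : ∀ j, Tendsto (fun ε : ℝ => ∫ x in K, t j ε x ^ 2) (𝓝[>] 0) (𝓝 0)) :
    Tendsto (fun ε : ℝ => ∫ x in K, (∑ j, t j ε x) ^ 2) (𝓝[>] 0) (𝓝 0) := by
  have h3 : Tendsto (fun ε : ℝ => (Fintype.card J : ℝ) * ∑ j, ∫ x in K, t j ε x ^ 2) (𝓝[>] 0)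
      (𝓝 0) := by
    have h4 : Tendsto (fun ε : ℝ => ∑ j, ∫ x in K, t j ε x ^ 2) (𝓝[>] 0)
        (𝓝 (∑ _j : J, (0 : ℝ))) := tendsto_finsetSum _ fun j _ => h2 j
    rw [Finset.sum_const_zero] at h4
    have h5 := h4.const_mul (Fintype.card J : ℝ)
    rwa [mul_zero] at h5
  refine squeeze_zero' ?_ ?_ h3
  · exact Eventually.of_forall fun ε => integral_nonneg fun x => sq_nonneg _
  · filter_upwards [eventually_all.2 h1] with ε hε
    rw [← integral_finsetSum _ (fun j _ => hε j), ← integral_const_mul]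
    refine integral_mono_of_nonneg (Eventually.of_forall fun x => sq_nonneg _) ?_
      (Eventually.of_forall fun x => ?_)
    · exact (integrable_finsetSum _ fun j _ => hε j).const_mul _
    · have := sq_sum_le_card_mul_sum_sq (s := (Finset.univ : Finset J)) (f := fun j => t j ε x)
      rwa [Finset.card_univ] at this

private theorem l2l_sub {n : ℕ} {u v : E n → ℝ} (hu : L2l u) (hv : L2l v) :
    L2l (fun x => u x - v x) := by
  refine ⟨hu.1.sub hv.1, fun K hK => ?_⟩
  have h := ((hu.2 K hK).add (hv.2 K hK)).const_mul 2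
  refine Integrable.mono' h ((hu.1.sub hv.1).restrict.pow 2) (Eventually.of_forall fun x => ?_)
  rw [Real.norm_of_nonneg (sq_nonneg _)]
  simp only [Pi.add_apply]
  nlinarith [sq_nonneg (u x + v x)]

/-- the weak equation tested with the mollifier -/
private theorem key {n : ℕ} {ι : Type} [Fintype ι] {ρ : E n → ℝ} (hρ : Mol ρ)
    {a : ι → Fin n → E n → ℝ} {b : ι → E n → ℝ} (ha : ∀ i k, ContDiff ℝ ∞ (a i k))
    (hb : ∀ i, ContDiff ℝ ∞ (b i)) {u : ι → E n → ℝ} {h : E n → ℝ} (hu : ∀ i, L2l (u i))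
    (hw : ∀ ψ, Cc ψ →
      ∫ x, (∑ i, u i x * ((∑ k, a i k x * fderiv ℝ ψ x (ee k)) + b i x * ψ x)) =
        ∫ x, h x * ψ x) {ε : ℝ} (hε : 0 < ε) (x : E n) :
    mo ρ ε h x = (∑ i, mo ρ ε (fun z => b i z * u i z) x) -
      ∑ i, ∑ k, ∫ y, (fderiv ℝ ρ y (ee k)) * (a i k (x - ε • y) * u i (x - ε • y)) / ε := by
  have hcc := cc_u hρ hε x
  have h1 := hw _ hcc
  have hback : ∀ y : E n, ε⁻¹ • (x - (x - ε • y)) = y := by
    intro y
    rw [sub_sub_cancel, smul_smul, inv_mul_cancel₀ hε.ne', one_smul]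
  have hc : |(ε ^ Module.finrank ℝ (E n))⁻¹| ≠ 0 := by
    rw [abs_ne_zero]
    exact inv_ne_zero (pow_ne_zero _ hε.ne')
  have h2 : mo ρ ε h x = |(ε ^ Module.finrank ℝ (E n))⁻¹| *
      ∫ z, h z * ρ (ε⁻¹ • (x - z)) := by
    rw [← sub_int x (fun z => h z * ρ (ε⁻¹ • (x - z))), mo]
    congr 1
    funext y
    rw [hback, mul_comm]
  rw [h2, ← h1, ← sub_int x (fun z => ∑ i, u i z * ((∑ k, a i k z *
    fderiv ℝ (fun z => ρ (ε⁻¹ • (x - z))) z (ee k)) + b i z * ρ (ε⁻¹ • (x - z))))]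
  have hA : ∀ i k, Integrable (fun y => (fderiv ℝ ρ y (ee k)) *
      (a i k (x - ε • y) * u i (x - ε • y)) / ε) := by
    intro i k
    exact (int_mo (fderiv_rho_cont hρ (ee k)) (fderiv_rho_supp hρ (ee k))
      (locInt_of_L2l (l2l_mul (ha i k).continuous (hu i))) hε x).div_const ε
  have hB : ∀ i, Integrable (fun y => ρ y * (b i (x - ε • y) * u i (x - ε • y))) := by
    intro i
    exact int_mo hρ.smooth.continuous (mol_compact hρ)
      (locInt_of_L2l (l2l_mul (hb i).continuous (hu i))) hε x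
  have h3 : ∑ i, mo ρ ε (fun z => b i z * u i z) x =
      ∫ y, ∑ i, ρ y * (b i (x - ε • y) * u i (x - ε • y)) := by
    rw [integral_finsetSum _ (fun i _ => hB i)]
    rfl
  have h4 : ∑ i, ∑ k, ∫ y, (fderiv ℝ ρ y (ee k)) * (a i k (x - ε • y) * u i (x - ε • y)) / ε =
      ∫ y, ∑ i, ∑ k, (fderiv ℝ ρ y (ee k)) * (a i k (x - ε • y) * u i (x - ε • y)) / ε := by
    rw [integral_finsetSum _ (fun i _ => integrable_finsetSum _ (fun k _ => hA i k))]
    refine Finset.sum_congr rfl fun i _ => ?_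
    rw [integral_finsetSum _ (fun k _ => hA i k)]
  rw [h3, h4, ← integral_sub (integrable_finsetSum _ (fun i _ => hB i))
    (integrable_finsetSum _ (fun i _ => integrable_finsetSum _ (fun k _ => hA i k)))]
  congr 1
  funext y
  rw [← Finset.sum_sub_distrib]
  refine Finset.sum_congr rfl fun i _ => ?_
  simp only [dder hρ, hback]
  have h5 : ∑ k, a i k (x - ε • y) * -(ε⁻¹ * fderiv ℝ ρ y (ee k)) =
      -∑ k, ε⁻¹ * (fderiv ℝ ρ y (ee k) * a i k (x - ε • y)) := by
    rw [← Finset.sum_neg_distrib]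
    refine Finset.sum_congr rfl fun k _ => ?_
    ring
  have h6 : ∑ k, (fderiv ℝ ρ y (ee k)) * (a i k (x - ε • y) * u i (x - ε • y)) / ε =
      (∑ k, ε⁻¹ * (fderiv ℝ ρ y (ee k) * a i k (x - ε • y))) * u i (x - ε • y) := by
    rw [Finset.sum_mul]
    refine Finset.sum_congr rfl fun k _ => ?_
    rw [div_eq_inv_mul]
    ring
  rw [h5, h6]
  ring

theorem hFrg (hMos : StMos) (hSch : StSch) (hDen : StDen) (hMoc : StMoc) (hFrc : StFrc) :
    TFrg := by
  have _h0 := hSch
  have _h1 := hDen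
  intro n ι _ ρ hρ a b ha hb u h hu hh hw K hK
  have hbu : ∀ i, L2l (fun z => b i z * u i z) := fun i => l2l_mul (hb i).continuous (hu i)
  have hau : ∀ i k, L2l (fun z => a i k z * u i z) := fun i k =>
    l2l_mul (ha i k).continuous (hu i)
  have hhl : L2l h := L2l_of_continuous hh
  have hml : ∀ v : E n → ℝ, L2l v → ∀ ε > 0, L2l (fun x => mo ρ ε v x - v x) := fun v hv ε hε =>
    l2l_sub (L2l_of_continuous (hMos n ρ hρ v hv ε hε).1.continuous) hv
  obtain ⟨t, ht⟩ : ∃ t : (ι ⊕ ι) ⊕ ((ι × Fin n) ⊕ Unit) → ℝ → E n → ℝ, t = fun j ε x =>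
      match j with
      | Sum.inl (Sum.inl i) => b i x * (mo ρ ε (u i) x - u i x)
      | Sum.inl (Sum.inr i) => -(mo ρ ε (fun z => b i z * u i z) x - b i x * u i x)
      | Sum.inr (Sum.inl p) => -(fderiv ℝ (fun z => a p.1 p.2 z * mo ρ ε (u p.1) z) x (ee p.2) -
          ∫ y, (fderiv ℝ ρ y (ee p.2)) * (a p.1 p.2 (x - ε • y) * u p.1 (x - ε • y)) / ε)
      | Sum.inr (Sum.inr _) => mo ρ ε h x - h x := ⟨_, rfl⟩
  have hsum : ∀ᶠ ε : ℝ in 𝓝[>] 0, ∫ x in K, (∑ j, t j ε x) ^ 2 = ∫ x in K,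
      ((∑ i, (b i x * mo ρ ε (u i) x -
        ∑ k, fderiv ℝ (fun z => a i k z * mo ρ ε (u i) z) x (ee k))) - h x) ^ 2 := by
    filter_upwards [self_mem_nhdsWithin] with ε hε
    congr 1
    funext x
    congr 1
    rw [ht]
    simp only [Fintype.sum_sum_type, Finset.univ_unique, Finset.sum_singleton,
      Fintype.sum_prod_type, mul_sub, Finset.sum_sub_distrib, Finset.sum_neg_distrib]
    rw [key hρ ha hb hu hw hε x]
    ring
  refine Tendsto.congr' hsum (sumsq t ?_ ?_)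
  · rintro ((i | i) | (p | _)) <;> filter_upwards [self_mem_nhdsWithin] with ε hε <;> rw [ht]
    · exact (l2l_mul (hb i).continuous (hml _ (hu i) ε hε)).2 K hK
    · simp only [neg_sq]
      exact (hml _ (hbu i) ε hε).2 K hK
    · simp only [neg_sq]
      have e1 := hMos n ρ hρ (u p.1) (hu p.1) ε hε
      have e2 := hMos n ρ hρ _ (hau p.1 p.2) ε hε
      have e3 : ContDiff ℝ ∞ (fun z => a p.1 p.2 z * mo ρ ε (u p.1) z) := (ha p.1 p.2).mul e1.1
      simp only [← e2.2]
      exact ((((e3.continuous_fderiv (by simp)).clm_apply continuous_const).sub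
        ((e2.1.continuous_fderiv (by simp)).clm_apply continuous_const)).pow
          2).continuousOn.integrableOn_compact hK
    · exact (hml _ hhl ε hε).2 K hK
  · rintro ((i | i) | (p | _)) <;> rw [ht]
    · obtain ⟨C, hC⟩ := hK.exists_bound_of_continuousOn (hb i).continuous.continuousOn
      have e1 := (hMoc n ρ hρ (u i) (hu i) K hK).const_mul (C ^ 2)
      rw [mul_zero] at e1
      refine squeeze_zero' (Eventually.of_forall fun ε => integral_nonneg fun x => sq_nonneg _)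
        ?_ e1
      filter_upwards [self_mem_nhdsWithin] with ε hε
      rw [← integral_const_mul]
      refine setIntegral_mono_on ((l2l_mul (hb i).continuous (hml _ (hu i) ε hε)).2 K hK)
        (((hml _ (hu i) ε hε).2 K hK).const_mul _) hK.measurableSet fun x hx => ?_
      rw [mul_pow]
      refine mul_le_mul_of_nonneg_right ?_ (sq_nonneg _)
      have e2 := hC x hx
      rw [Real.norm_eq_abs] at e2
      rw [← sq_abs]
      exact pow_le_pow_left₀ (abs_nonneg _) e2 2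
    · simp only [neg_sq]
      exact hMoc n ρ hρ _ (hbu i) K hK
    · simp only [neg_sq]
      exact hFrc n ρ hρ (a p.1 p.2) (ha p.1 p.2) (u p.1) (hu p.1) (ee p.2) K hK
    · exact hMoc n ρ hρ h hhl K hK

end Pool.Agent.Helper82.DSH
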